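import Pool.Agent.TH358.SN.FewP

set_option autoImplicit false

/-!
Examples of multiplicatively convex sets.
-/

namespace Pool.Agent.TH358.SN

open Finset

/-- the divisors of `N` up to `x` -/
theorem convex_divisors (N x : ℕ) (hN : N ≠ 0) : MulConvex (N.divisors.filter (· ≤ x)) := by
  refine ⟨fun h => ?_, ?_⟩
  · have := Nat.pos_of_mem_divisors (mem_filter.1 h).1
    omega
  · intro K f m hK hf hm
    have hd : ∀ i, f i ∣ N := fun i => Nat.dvd_of_mem_divisors (mem_filter.1 (hf i)).1
    have hx : ∀ i, f i ≤ x := fun i => (mem_filter.1 (hf i)).2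
    have hpos : ∀ i, 0 < f i := fun i => Nat.pos_of_dvd_of_pos (hd i) (Nat.pos_of_ne_zero hN)
    have h1 : m ^ K ∣ N ^ K := by
      refine hm.trans ?_
      have := Finset.prod_dvd_prod_of_dvd f (fun _ : Fin K => N) (s := univ) fun i _ => hd i
      simpa using this
    have h2 : m ∣ N := (Nat.pow_dvd_pow_iff (by omega)).1 h1
    rw [mem_filter, Nat.mem_divisors]
    refine ⟨⟨h2, hN⟩, ?_⟩
    have h3 : m ^ K ≤ x ^ K := by
      calc m ^ K ≤ ∏ i, f i := Nat.le_of_dvd (Finset.prod_pos fun i _ => hpos i) hm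
        _ ≤ ∏ _i : Fin K, x := Finset.prod_le_prod' fun i _ => hx i
        _ = x ^ K := by simp
    exact (Nat.pow_le_pow_iff_left (by omega)).1 h3

/-- divisor-closed sets of squarefree numbers -/
theorem convex_squarefree (D : Finset ℕ) (h1 : ∀ d ∈ D, Squarefree d)
    (h2 : ∀ d ∈ D, ∀ e, e ∣ d → e ∈ D) : MulConvex D := by
  refine ⟨fun h => not_squarefree_zero (h1 0 h), ?_⟩
  intro K f m hK hf hm
  have hne : ∀ i, f i ≠ 0 := fun i => (h1 _ (hf i)).ne_zero
  have hprod : ∏ i, f i ≠ 0 := Finset.prod_ne_zero_iff.2 fun i _ => hne i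
  have hm0 : m ≠ 0 := by
    rintro rfl
    rw [zero_pow (by omega), zero_dvd_iff] at hm
    exact hprod hm
  refine h2 (f ⟨0, by omega⟩) (hf _) m ?_
  rw [← Nat.factorization_le_iff_dvd hm0 (hne _)]
  have h3 := (Nat.factorization_le_iff_dvd (pow_ne_zero K hm0) hprod).2 hm
  intro p
  have h4 := h3 p
  rw [Nat.factorization_pow, Finsupp.smul_apply, smul_eq_mul,
    Nat.factorization_prod fun i _ => hne i, Finsupp.finsetSum_apply] at h4
  have h5 : ∀ i, (f i).factorization p ≤ 1 := fun i =>
    ((Nat.squarefree_iff_factorization_le_one (hne i)).1 (h1 _ (hf i)) p)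
  by_contra hcon
  push Not at hcon
  have h6 : ∑ i, (f i).factorization p < K * m.factorization p := by
    have h7 : 1 ≤ m.factorization p := by omega
    have h8 : ∑ i, (f i).factorization p < ∑ _i : Fin K, m.factorization p := by
      apply Finset.sum_lt_sum
      · intro i _
        exact (h5 i).trans h7
      · exact ⟨⟨0, by omega⟩, mem_univ _, hcon⟩
    simpa using h8
  omega

end Pool.Agent.TH358.SN
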