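import Pool.Agent.TH358.SN.Conv

set_option autoImplicit false

/-!
The integers up to `x` composed of primes of a given set.
-/

namespace Pool.Agent.TH358.SN

open Finset

/-- the positive integers up to `x` all of whose prime factors belong to `P` -/
def comp (x : ℕ) (P : Finset ℕ) : Finset ℕ := (Icc 1 x).filter fun n => n.primeFactors ⊆ P

theorem mem_comp {x n : ℕ} {P : Finset ℕ} :
    n ∈ comp x P ↔ (1 ≤ n ∧ n ≤ x) ∧ n.primeFactors ⊆ P := by
  rw [comp, mem_filter, mem_Icc]

theorem comp_convex (x : ℕ) (P : Finset ℕ) : MulConvex (comp x P) := by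
  refine ⟨fun h => ?_, ?_⟩
  · have := (mem_comp.1 h).1.1
    omega
  · intro K f m hK hf hm
    have hpos : ∀ i, 1 ≤ f i := fun i => (mem_comp.1 (hf i)).1.1
    have hprod : 0 < ∏ i, f i := Finset.prod_pos fun i _ => hpos i
    have hm0 : m ≠ 0 := by
      rintro rfl
      rw [zero_pow (by omega), zero_dvd_iff] at hm
      omega
    refine mem_comp.2 ⟨⟨Nat.one_le_iff_ne_zero.2 hm0, ?_⟩, ?_⟩
    · have h1 : m ^ K ≤ x ^ K := by
        calc m ^ K ≤ ∏ i, f i := Nat.le_of_dvd hprod hm
          _ ≤ ∏ _i : Fin K, x := Finset.prod_le_prod' fun i _ => (mem_comp.1 (hf i)).1.2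
          _ = x ^ K := by simp
      exact (Nat.pow_le_pow_iff_left (by omega)).1 h1
    · intro p hp
      have hpp := Nat.prime_of_mem_primeFactors hp
      have hpd := Nat.dvd_of_mem_primeFactors hp
      have h1 : p ∣ ∏ i, f i := (dvd_pow hpd (by omega : K ≠ 0)).trans hm
      obtain ⟨i, -, hi⟩ := (Prime.dvd_finsetProd_iff hpp.prime _).1 h1
      apply (mem_comp.1 (hf i)).2
      rw [Nat.mem_primeFactors]
      exact ⟨hpp, hi, by have := hpos i; omega⟩

theorem comp_primes (x : ℕ) (P : Finset ℕ) : (comp x P).biUnion Nat.primeFactors ⊆ P := by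
  intro p hp
  obtain ⟨n, hn, h⟩ := mem_biUnion.1 hp
  exact (mem_comp.1 hn).2 h

theorem factorial_le_prod : ∀ T : Finset ℕ, (∀ t ∈ T, 1 ≤ t) → T.card.factorial ≤ ∏ t ∈ T, t := by
  intro T
  induction T using Finset.induction_on_max with
  | empty => simp
  | insert a T hT ih =>
    intro h
    have hna : a ∉ T := fun ha => lt_irrefl _ (hT a ha)
    rw [Finset.card_insert_of_notMem hna, Finset.prod_insert hna, Nat.factorial_succ]
    apply Nat.mul_le_mul
    · have h1 : T ⊆ Ico 1 a := fun t ht => by
        rw [mem_Ico]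
        exact ⟨h t (mem_insert_of_mem ht), hT t ht⟩
      have h2 := card_le_card h1
      rw [Nat.card_Ico] at h2
      have h3 := h a (mem_insert_self _ _)
      omega
    · exact ih fun t ht => h t (mem_insert_of_mem ht)

theorem factorial_card_primeFactors_le {n : ℕ} (hn : n ≠ 0) :
    n.primeFactors.card.factorial ≤ n := by
  refine (factorial_le_prod n.primeFactors fun t ht =>
    (Nat.prime_of_mem_primeFactors ht).one_le).trans ?_
  exact Nat.le_of_dvd (Nat.pos_of_ne_zero hn) (Nat.prod_primeFactors_dvd n)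

theorem choose_le_comp (x y : ℕ) (P : Finset ℕ) (hP : ∀ p ∈ P, p.Prime ∧ p ≤ y) (s : ℕ)
    (hs : y ^ s ≤ x) : P.card.choose s ≤ (comp x P).card := by
  rw [← Finset.card_powersetCard]
  apply Finset.card_le_card_of_injOn (fun T => ∏ t ∈ T, t)
  · intro T hT
    rw [Finset.mem_coe, mem_powersetCard] at hT
    have hpr : ∀ p ∈ T, p.Prime := fun p hp => (hP p (hT.1 hp)).1
    refine mem_comp.2 ⟨⟨Finset.prod_pos fun p hp => (hpr p hp).pos, ?_⟩, ?_⟩
    · calc ∏ t ∈ T, t ≤ ∏ _t ∈ T, y := Finset.prod_le_prod' fun t ht => (hP t (hT.1 ht)).2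
        _ = y ^ s := by rw [Finset.prod_const, hT.2]
        _ ≤ x := hs
    · rw [Nat.primeFactors_prod hpr]
      exact hT.1
  · intro T hT T' hT' h
    rw [Finset.mem_coe, mem_powersetCard] at hT hT'
    have h1 := Nat.primeFactors_prod (s := T) fun p hp => (hP p (hT.1 hp)).1
    have h2 := Nat.primeFactors_prod (s := T') fun p hp => (hP p (hT'.1 hp)).1
    have h3 : ∏ t ∈ T, t = ∏ t ∈ T', t := h
    rw [← h1, ← h2, h3]

/-- the number of prime factors of `n ≤ x` is at most `4 log x / log log x` -/
theorem omega_le {n : ℕ} (hn : n ≠ 0) {X : ℝ} (hX : 1 < X) (hnX : Real.log n ≤ X) :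
    (n.primeFactors.card : ℝ) ≤ 4 * X / Real.log X := by
  have hl : 0 < Real.log X := Real.log_pos hX
  set w := n.primeFactors.card with hw
  by_contra hcon
  push Not at hcon
  have hw0 : (0 : ℝ) < w := lt_trans (by positivity) hcon
  have h1 : (w : ℝ) * Real.log w - w ≤ X := by
    have h2 : Real.log (w.factorial : ℝ) ≤ Real.log n :=
      Real.log_le_log (by exact_mod_cast Nat.factorial_pos _)
        (by exact_mod_cast factorial_card_primeFactors_le hn)
    have h3 : (w : ℝ) * Real.log w - w ≤ Real.log (w.factorial : ℝ) := by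
      have h4 : (w : ℝ) ^ w / w.factorial ≤ Real.exp w := Real.pow_div_factorial_le_exp w hw0.le w
      have h5 := Real.log_le_log (by positivity) h4
      rw [Real.log_exp, Real.log_div (by positivity) (by positivity), Real.log_pow] at h5
      linarith
    linarith
  have h6 : Real.log (4 * X / Real.log X) ≤ Real.log w := Real.log_le_log (by positivity) hcon.le
  rw [Real.log_div (by positivity) hl.ne', Real.log_mul (by norm_num) (by positivity)] at h6
  have h7 : Real.log (Real.log X) ≤ Real.log X / 2 := by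
    have h8 := Real.add_one_le_exp (Real.log X / 2 - 1)
    have h9 : Real.log (Real.log X / 2) ≤ Real.log X / 2 - 1 :=
      Real.log_le_sub_one_of_pos (by positivity)
    rw [Real.log_div hl.ne' (by norm_num)] at h9
    have h10 := Real.log_two_lt_d9
    linarith
  have h11 : (1 : ℝ) < Real.log 4 := by
    have : Real.log 4 = 2 * Real.log 2 := by
      rw [show (4 : ℝ) = 2 ^ 2 by norm_num, Real.log_pow]; norm_num
    have h10 := Real.log_two_gt_d9
    linarith
  have h12 : Real.log X / 2 ≤ Real.log w - 1 := by linarith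
  have h13 : (w : ℝ) * (Real.log X / 2) ≤ w * (Real.log w - 1) :=
    mul_le_mul_of_nonneg_left h12 hw0.le
  have h14 : 2 * X < (w : ℝ) * (Real.log X / 2) := by
    have := mul_lt_mul_of_pos_right hcon (by positivity : 0 < Real.log X / 2)
    have e : 4 * X / Real.log X * (Real.log X / 2) = 2 * X := by field_simp; ring
    linarith
  nlinarith

end Pool.Agent.TH358.SN
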