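import Mathlib
import Pool.Agent.W857.Asm2

set_option autoImplicit false

/-!
Multiplicatively convex sets of positive integers: the number of products of `K` elements.
-/

namespace Pool.Agent.TH358.SN

open Finset H633R5.FS

/-- `D` is a set of positive integers, and with `K` elements `d₁, …, d_K` it contains every `m` such
that `m ^ K` divides `d₁ ⋯ d_K`. -/
def MulConvex (D : Finset ℕ) : Prop :=
  0 ∉ D ∧ ∀ (K : ℕ) (f : Fin K → ℕ) (m : ℕ), 1 ≤ K → (∀ i, f i ∈ D) → m ^ K ∣ ∏ i, f i → m ∈ D

/-- the largest `m` such that `m ^ K` divides `n` -/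
noncomputable def rt (K n : ℕ) : ℕ :=
  (n.factorization.mapRange (· / K) (Nat.zero_div K)).prod (· ^ ·)

theorem rt_fact (K n : ℕ) : (rt K n).factorization =
    n.factorization.mapRange (· / K) (Nat.zero_div K) := by
  unfold rt
  apply Nat.prod_pow_factorization_eq_self
  intro p hp
  have h1 := Finsupp.support_mapRange hp
  exact Nat.prime_of_mem_primeFactors (by simpa using h1)

theorem rt_fact_apply (K n p : ℕ) : (rt K n).factorization p = n.factorization p / K := by
  rw [rt_fact]; rfl

theorem rt_ne_zero (K n : ℕ) : rt K n ≠ 0 := by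
  unfold rt
  rw [Finsupp.prod]
  apply Finset.prod_ne_zero_iff.2
  intro p hp
  have h1 := Finsupp.support_mapRange hp
  have hpp : p.Prime := Nat.prime_of_mem_primeFactors (by simpa using h1)
  exact pow_ne_zero _ hpp.ne_zero

theorem rt_pow_dvd (K n : ℕ) (hn : n ≠ 0) : rt K n ^ K ∣ n := by
  rw [← Nat.factorization_le_iff_dvd (pow_ne_zero _ (rt_ne_zero K n)) hn, Nat.factorization_pow]
  intro p
  rw [Finsupp.smul_apply, rt_fact_apply, smul_eq_mul]
  exact Nat.mul_div_le _ _

theorem card_le_of_rt (K : ℕ) (hK : 1 ≤ K) (D R N : Finset ℕ) (h0 : ∀ n ∈ N, n ≠ 0)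
    (hD : ∀ n ∈ N, rt K n ∈ D) (hR : ∀ n ∈ N, n.primeFactors ⊆ R) :
    N.card ≤ D.card * K ^ R.card := by
  classical
  let g : ℕ → ℕ × (R → Fin K) := fun n =>
    (rt K n, fun p => ⟨n.factorization p % K, Nat.mod_lt _ (by omega)⟩)
  have h1 : N.card ≤ (D ×ˢ (univ : Finset (R → Fin K))).card := by
    apply Finset.card_le_card_of_injOn g
    · intro n hn
      rw [Finset.mem_coe, mem_product]
      exact ⟨hD n hn, mem_univ _⟩
    · intro n hn n' hn' h
      have e1 : rt K n = rt K n' := congrArg Prod.fst h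
      have e2 := congrArg Prod.snd h
      apply Nat.eq_of_factorization_eq (h0 n hn) (h0 n' hn')
      intro p
      by_cases hp : p ∈ R
      · have e3 := congrFun e2 ⟨p, hp⟩
        have e4 : n.factorization p % K = n'.factorization p % K := by
          have := congrArg Fin.val e3
          exact this
        have e5 : n.factorization p / K = n'.factorization p / K := by
          rw [← rt_fact_apply, ← rt_fact_apply, e1]
        rw [← Nat.div_add_mod (n.factorization p) K, ← Nat.div_add_mod (n'.factorization p) K,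
          e4, e5]
      · have a1 : n.factorization p = 0 := by
          by_contra hne
          have : p ∈ n.primeFactors := by
            rw [← Nat.support_factorization, Finsupp.mem_support_iff]; exact hne
          exact hp (hR n hn this)
        have a2 : n'.factorization p = 0 := by
          by_contra hne
          have : p ∈ n'.primeFactors := by
            rw [← Nat.support_factorization, Finsupp.mem_support_iff]; exact hne
          exact hp (hR n' hn' this)
        rw [a1, a2]
  rw [card_product, card_univ, Fintype.card_fun, Fintype.card_fin, Fintype.card_coe] at h1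
  exact h1

theorem card_PS_le (K : ℕ) (hK : 1 ≤ K) (D : Finset ℕ) (hD : MulConvex D) (A : Finset ℤ)
    (hA : ∀ a ∈ A, a.natAbs ∈ D) :
    (PS fun _ : Fin K => A).card ≤ 2 * (D.card * K ^ (D.biUnion Nat.primeFactors).card) := by
  classical
  have h1 : (PS fun _ : Fin K => A).card ≤ 2 * ((PS fun _ : Fin K => A).image Int.natAbs).card := by
    apply Finset.card_le_mul_card_image
    intro b _
    refine (Finset.card_le_card (t := {(b : ℤ), -(b : ℤ)}) ?_).trans Finset.card_le_two
    intro z hz
    rw [mem_filter] at hz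
    have := Int.natAbs_eq z
    rw [hz.2] at this
    simpa using this
  refine h1.trans (Nat.mul_le_mul_left 2 ?_)
  have hel : ∀ n ∈ (PS fun _ : Fin K => A).image Int.natAbs, ∃ f : Fin K → ℕ, (∀ i, f i ∈ D) ∧
      n = ∏ i, f i := by
    intro n hn
    obtain ⟨z, hz, rfl⟩ := Finset.mem_image.1 hn
    obtain ⟨f, hf, rfl⟩ := Finset.mem_image.1 hz
    rw [Fintype.mem_piFinset] at hf
    refine ⟨fun i => (f i).natAbs, fun i => hA _ (hf i), ?_⟩
    exact map_prod Int.natAbsHom f univ
  have hne : ∀ f : Fin K → ℕ, (∀ i, f i ∈ D) → ∏ i, f i ≠ 0 := by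
    intro f hf
    apply Finset.prod_ne_zero_iff.2
    intro i _ h
    exact hD.1 (h ▸ hf i)
  apply card_le_of_rt K hK
  · intro n hn
    obtain ⟨f, hf, rfl⟩ := hel n hn
    exact hne f hf
  · intro n hn
    obtain ⟨f, hf, rfl⟩ := hel n hn
    exact hD.2 K f _ hK hf (rt_pow_dvd K _ (hne f hf))
  · intro n hn
    obtain ⟨f, hf, rfl⟩ := hel n hn
    intro p hp
    have hpp := Nat.prime_of_mem_primeFactors hp
    have hpd := Nat.dvd_of_mem_primeFactors hp
    obtain ⟨i, -, hi⟩ := (Prime.dvd_finsetProd_iff hpp.prime _).1 hpd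
    refine mem_biUnion.2 ⟨f i, hf i, ?_⟩
    rw [Nat.mem_primeFactors]
    exact ⟨hpp, hi, fun h => hD.1 (h ▸ hf i)⟩

theorem Dv_subset (D : Finset ℕ) (hD : MulConvex D) (A : Finset ℤ)
    (hA : ∀ a ∈ A, a.natAbs ∈ D) : Pool.Agent.W857.FD.Dv A ⊆ D := by
  intro d hd
  obtain ⟨a, ha, hda⟩ := mem_biUnion.1 hd
  refine hD.2 1 (fun _ => a.natAbs) d le_rfl (fun _ => hA a ha) ?_
  simpa using Nat.dvd_of_mem_divisors hda

end Pool.Agent.TH358.SN
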