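import Pool.Agent.TH358.SN.Smooth
import Pool.Agent.W857.Inj2

set_option autoImplicit false

/-!
Either there are `O(L)` primes or all the numbers have at most `δ L` prime factors.
-/

namespace Pool.Agent.TH358.SN

open Finset

theorem dich (δ b c Θ : ℝ) (hδ : 0 < δ) (hb : 0 < b) (hc : 0 < c) (hΘ : 1 ≤ Θ) :
    ∃ C L₀ : ℝ, 0 ≤ C ∧ 1 ≤ L₀ ∧
    ∀ (x y : ℕ) (P : Finset ℕ), (∀ p ∈ P, p.Prime ∧ p ≤ y) → 2 ≤ y → y ≤ x →
      b * (y : ℝ) ^ c ≤ P.card → ∀ L : ℝ, L₀ ≤ L → Real.log (comp x P).card ≤ Θ * L →
      L ≤ Real.log x + Real.log 2 →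
      (P.card : ℝ) ≤ C * L ∨ ∀ n ∈ comp x P, (n.primeFactors.card : ℝ) ≤ δ * L := by
  set G : ℝ := 16 * Θ / (c * δ) with hG
  have hG0 : 0 < G := by positivity
  have hlog2 : 0 < Real.log 2 := Real.log_pos (by norm_num)
  have hlog2' : Real.log 2 < 1 := by linarith [Real.log_two_lt_d9]
  have hlog2'' : (2 : ℝ) / 3 < Real.log 2 := by linarith [Real.log_two_gt_d9]
  refine ⟨Θ * (8 + 3 * Real.exp G / Real.log 2), Real.exp G + Real.exp (c / b) + 2,
    by positivity, by
    have := Real.exp_pos G
    have := Real.exp_pos (c / b)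
    linarith, ?_⟩
  intro x y P hP hy hyx hPc L hL hLc hLx
  by_cases hr : (P.card : ℝ) ≤ Θ * (8 + 3 * Real.exp G / Real.log 2) * L
  · exact Or.inl hr
  right
  push Not at hr
  have eG := Real.exp_pos G
  have ec := Real.exp_pos (c / b)
  have hL1 : 1 ≤ L := by linarith
  set X := Real.log x with hX
  set Y := Real.log y with hY
  have hXG : Real.exp G + Real.exp (c / b) + 1 ≤ X := by linarith
  have hX1 : 1 < X := by linarith
  have hlX : 0 < Real.log X := Real.log_pos hX1
  have hlXG : G ≤ Real.log X := by
    rw [← Real.log_exp G]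
    exact Real.log_le_log eG (by linarith)
  have hlXc : c / b ≤ Real.log X := by
    rw [← Real.log_exp (c / b)]
    exact Real.log_le_log ec (by linarith)
  have hyr : (2 : ℝ) ≤ y := by exact_mod_cast hy
  have hY0 : 0 < Y := Real.log_pos (by linarith)
  have hx0 : x ≠ 0 := by omega
  set u := Nat.log y x with hu
  have hu1 : 1 ≤ u := by
    rw [hu]
    exact Nat.log_pos (by omega) hyx
  have hyu : y ^ u ≤ x := Nat.pow_log_le_self y hx0
  have hyu2 : x < y ^ (u + 1) := Nat.lt_pow_succ_log_self (by omega) x
  have hur : (1 : ℝ) ≤ u := by exact_mod_cast hu1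
  have hXu : (u : ℝ) * Y ≤ X := by
    have h1 : Real.log ((y : ℝ) ^ u) ≤ Real.log x :=
      Real.log_le_log (by positivity) (by exact_mod_cast hyu)
    rwa [Real.log_pow] at h1
  have hXu2 : X < 2 * u * Y := by
    have h1 : Real.log x < Real.log ((y : ℝ) ^ (u + 1)) :=
      Real.log_lt_log (by exact_mod_cast Nat.pos_of_ne_zero hx0) (by exact_mod_cast hyu2)
    rw [Real.log_pow] at h1
    push_cast at h1
    nlinarith
  set r := P.card with hrdef
  have hchoose : ∀ s M : ℕ, s ≤ u → M * s ≤ r → 1 ≤ M →
      (s : ℝ) * Real.log M ≤ Θ * L := by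
    intro s M hs hM hM1
    rcases Nat.eq_zero_or_pos s with rfl | hs0
    · simp; positivity
    have h1 : M ^ s ≤ (comp x P).card := by
      calc M ^ s ≤ (M * s).choose s := Pool.Agent.W857.FD.pow_le_choose M hM1 s
        _ ≤ r.choose s := Nat.choose_le_choose s hM
        _ ≤ (comp x P).card := choose_le_comp x y P hP s
            ((Nat.pow_le_pow_right (by omega) hs).trans hyu)
    have h2 : Real.log ((M : ℝ) ^ s) ≤ Real.log (comp x P).card :=
      Real.log_le_log (by positivity) (by exact_mod_cast h1)
    rw [Real.log_pow] at h2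
    linarith
  -- `2 u < r`
  have h2u : 2 * u < r := by
    by_contra hcon
    push Not at hcon
    have h1 := hchoose (r / 2) 2 (by omega) (by omega) (by norm_num)
    have h2 : (r : ℝ) ≤ 2 * ((r / 2 : ℕ) : ℝ) + 1 := by
      have : r ≤ 2 * (r / 2) + 1 := by omega
      exact_mod_cast this
    push_cast at h1
    have h3 : ((r / 2 : ℕ) : ℝ) * (2 / 3) ≤ ((r / 2 : ℕ) : ℝ) * Real.log 2 :=
      mul_le_mul_of_nonneg_left hlog2''.le (by positivity)
    have h4 : 0 ≤ Θ * (3 * Real.exp G / Real.log 2) * L := by positivity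
    have h5 : 1 ≤ Θ * L := by nlinarith
    nlinarith
  set M := r / u with hM
  have hM2 : 2 ≤ M := by
    rw [hM, Nat.le_div_iff_mul_le (by omega)]
    omega
  have hM2r : (2 : ℝ) ≤ M := by exact_mod_cast hM2
  have hMu : M * u ≤ r := Nat.div_mul_le_self r u
  have hrM : r < (M + 1) * u := by
    have := Nat.lt_div_mul_add (a := r) (b := u) (by omega)
    rw [← hM] at this
    linarith
  have hrMr : (r : ℝ) < (M + 1) * u := by exact_mod_cast hrM
  have hML := hchoose u M le_rfl hMu (by omega)
  have hlM : Real.log 2 ≤ Real.log M := Real.log_le_log (by norm_num) hM2r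
  have hMG : Real.exp G ≤ M := by
    by_contra hcon
    push Not at hcon
    have h1 : (8 + 3 * Real.exp G / Real.log 2) * (u * Real.log M / 2) < 3 / 2 * M * u := by
      calc (8 + 3 * Real.exp G / Real.log 2) * (u * Real.log M / 2) ≤
          (8 + 3 * Real.exp G / Real.log 2) * (Θ * L) := by
            apply mul_le_mul_of_nonneg_left _ (by positivity)
            have : 0 ≤ Θ * L := by positivity
            linarith
        _ = Θ * (8 + 3 * Real.exp G / Real.log 2) * L := by ring
        _ < r := hr
        _ < (M + 1) * u := hrMr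
        _ ≤ 3 / 2 * M * u := by nlinarith
    have h2 : (3 * Real.exp G / Real.log 2) * (u * Real.log 2 / 2) ≤
        (8 + 3 * Real.exp G / Real.log 2) * (u * Real.log M / 2) := by
      apply mul_le_mul (by linarith) _ (by positivity) (by positivity)
      have : (u : ℝ) * Real.log 2 ≤ u * Real.log M := mul_le_mul_of_nonneg_left hlM (by linarith)
      linarith
    have h3 : (3 * Real.exp G / Real.log 2) * (u * Real.log 2 / 2) = 3 / 2 * Real.exp G * u := by
      field_simp
    have h4 : 3 / 2 * (M : ℝ) * u ≤ 3 / 2 * Real.exp G * u := by nlinarith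
    linarith
  have hlMG : G ≤ Real.log M := by
    rw [← Real.log_exp G]
    exact Real.log_le_log eG hMG
  have hlM0 : 0 < Real.log M := by linarith
  -- the main inequality
  have hkey : 8 * Θ * Y ≤ δ * Real.log X * Real.log M := by
    have hGc : δ * G * c = 16 * Θ := by rw [hG]; field_simp
    rcases le_or_gt (c * Y) (2 * Real.log X) with hcase | hcase
    · have h1 : 8 * Θ * Y ≤ δ * G * Real.log X := by
        have h2 : (δ * G) * (c * Y) ≤ (δ * G) * (2 * Real.log X) :=
          mul_le_mul_of_nonneg_left hcase (by positivity)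
        have h3 : (δ * G) * (c * Y) = 16 * Θ * Y := by rw [← hGc]; ring
        linarith
      have h3 : δ * Real.log X * G ≤ δ * Real.log X * Real.log M :=
        mul_le_mul_of_nonneg_left hlMG (by positivity)
      nlinarith
    · have hY2 : 2 / b < Y := by
        have : c * (2 / b) < c * Y := by
          have e : c * (2 / b) = 2 * (c / b) := by ring
          linarith
        exact lt_of_mul_lt_mul_left this hc.le
      have hr0 : (0 : ℝ) < r := by
        have : 0 < r := by omega
        exact_mod_cast this
      have h1 : Real.log b + c * Y ≤ Real.log r := by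
        have h2 := Real.log_le_log (by positivity) hPc
        rwa [Real.log_mul hb.ne' (by positivity), Real.log_rpow (by linarith)] at h2
      have h2 : Real.log r ≤ Real.log M + Real.log 2 + Real.log u := by
        have h3 : (r : ℝ) ≤ M * 2 * u := by nlinarith
        have h4 := Real.log_le_log hr0 h3
        rwa [Real.log_mul (by positivity) (by positivity), Real.log_mul (by positivity)
          (by norm_num)] at h4
      have h3 : Real.log u + Real.log Y ≤ Real.log X := by
        rw [← Real.log_mul (by positivity) hY0.ne']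
        exact Real.log_le_log (by positivity) hXu
      have h4 : Real.log 2 - Real.log b ≤ Real.log Y := by
        rw [← Real.log_div (by norm_num) hb.ne']
        exact Real.log_le_log (by positivity) hY2.le
      have h5 : c * Y / 2 ≤ Real.log M := by linarith
      have h6 : δ * G * (c * Y / 2) ≤ δ * Real.log X * Real.log M := by
        apply mul_le_mul _ h5 (by positivity) (by positivity)
        exact mul_le_mul_of_nonneg_left hlXG hδ.le
      have h7 : δ * G * (c * Y / 2) = 8 * Θ * Y := by
        have : δ * G * (c * Y / 2) = (δ * G * c) * Y / 2 := by ring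
        rw [this, hGc]; ring
      linarith
  have hfin : 4 * X / Real.log X ≤ δ * L := by
    rw [div_le_iff₀ hlX]
    have h1 : X * Real.log M ≤ 2 * Θ * Y * L := by
      have h2 : X * Real.log M ≤ 2 * u * Y * Real.log M :=
        mul_le_mul_of_nonneg_right hXu2.le hlM0.le
      have h3 : 2 * u * Y * Real.log M = 2 * Y * (u * Real.log M) := by ring
      have h4 : 2 * Y * (u * Real.log M) ≤ 2 * Y * (Θ * L) :=
        mul_le_mul_of_nonneg_left hML (by positivity)
      nlinarith
    have h3 : 8 * Θ * Y * X ≤ δ * Real.log X * (2 * Θ * Y * L) := by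
      calc 8 * Θ * Y * X ≤ δ * Real.log X * Real.log M * X :=
            mul_le_mul_of_nonneg_right hkey (by linarith)
        _ = δ * Real.log X * (X * Real.log M) := by ring
        _ ≤ δ * Real.log X * (2 * Θ * Y * L) := mul_le_mul_of_nonneg_left h1 (by positivity)
    have h4 : (2 * Θ * Y) * (4 * X) ≤ (2 * Θ * Y) * (δ * L * Real.log X) := by
      calc (2 * Θ * Y) * (4 * X) = 8 * Θ * Y * X := by ring
        _ ≤ _ := h3
        _ = _ := by ring
    exact le_of_mul_le_mul_left h4 (by positivity)
  intro n hn
  have hn1 := (mem_comp.1 hn).1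
  refine (omega_le (by omega) hX1 ?_).trans hfin
  exact Real.log_le_log (by exact_mod_cast hn1.1) (by exact_mod_cast hn1.2)

end Pool.Agent.TH358.SN
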