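import Pool.Agent.TH358.SN.Conv

set_option autoImplicit false

/-!
Sumsets of large subsets of multiplicatively convex sets of integers with few prime factors.
-/

namespace Pool.Agent.TH358.SN

open Finset H633R5.FS
open scoped Pointwise

theorem exists_K (b ε : ℝ) (hb : 0 ≤ b) (hε : 0 < ε) (a : ℝ) : ∃ K : ℕ, 2 ≤ K ∧
    a + b * Real.log K ≤ ε * (K - 1) ∧ 1 ≤ ε * ((K : ℝ) - 1) := by
  have h1 := (Real.isLittleO_log_id_atTop.def (show 0 < ε / (2 * (b + 1)) by positivity))
  have h2 : ∀ᶠ x : ℝ in Filter.atTop, 2 ≤ x ∧ a + ε ≤ ε / 2 * x ∧ 1 + ε ≤ ε * x := by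
    filter_upwards [Filter.eventually_ge_atTop (2 : ℝ),
      Filter.eventually_ge_atTop ((a + ε) / (ε / 2)),
      Filter.eventually_ge_atTop ((1 + ε) / ε)] with x hx h3 h4
    refine ⟨hx, ?_, ?_⟩
    · rw [div_le_iff₀ (by positivity)] at h3; linarith
    · rw [div_le_iff₀ hε] at h4; linarith
  have h3 := (tendsto_natCast_atTop_atTop (R := ℝ)).eventually (h1.and h2)
  obtain ⟨K, h4, h5, h6, h7⟩ := h3.exists
  have hK0 : (0 : ℝ) ≤ K := by positivity
  refine ⟨K, by exact_mod_cast h5, ?_, by linarith⟩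
  have h8 : Real.log K ≤ ε / (2 * (b + 1)) * K := by
    have := h4
    rw [id, Real.norm_of_nonneg hK0] at this
    exact (le_abs_self _).trans this
  have h9 : b * Real.log K ≤ ε / 2 * K := by
    calc b * Real.log K ≤ b * (ε / (2 * (b + 1)) * K) := mul_le_mul_of_nonneg_left h8 hb
      _ = (b / (b + 1)) * (ε / 2 * K) := by field_simp
      _ ≤ 1 * (ε / 2 * K) := by
          apply mul_le_mul_of_nonneg_right _ (by positivity)
          rw [div_le_one (by linarith)]; linarith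
      _ = ε / 2 * K := one_mul _
  linarith

theorem few_primes (k : ℕ) (ε C : ℝ) (hε : 0 < ε) (hC : 0 ≤ C) : ∃ η κ : ℝ, 0 < η ∧ η ≤ 1 / 2 ∧
    0 < κ ∧ ∀ D : Finset ℕ, MulConvex D → ∀ A : Finset ℤ, A.Nonempty → (∀ a ∈ A, a.natAbs ∈ D) →
      (D.card : ℝ) ^ (1 - η) ≤ A.card →
      ((D.biUnion Nat.primeFactors).card : ℝ) ≤ C * Real.log A.card →
      ∀ Q : Finset ℤ, Q.Nonempty →
        κ * (A.card : ℝ) ^ ((k : ℝ) - ε) * (Q.card : ℝ) ^ (1 - ε) ≤ ((SS k A + Q).card : ℝ) := by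
  obtain ⟨K, hK2, hK3, hK4⟩ := exists_K (k * C) ε (by positivity) hε (2 * k + 1)
  have hK1 : 1 ≤ K := by omega
  have hKr : (2 : ℝ) ≤ K := by exact_mod_cast hK2
  obtain ⟨η₀, C₀, hη₀, hgen⟩ := Pool.Agent.W857.FD.gen2 k K hK1 1 one_pos
  set η : ℝ := min (1 / 2) (η₀ / (1 + η₀)) with hη
  have hη1 : η ≤ 1 / 2 := min_le_left _ _
  have hη2 : η ≤ η₀ / (1 + η₀) := min_le_right _ _
  have hηp : 0 < η := lt_min (by norm_num) (by positivity)
  refine ⟨η, Real.exp (-((C₀ + k * Real.log 2) / (K - 1))), hηp, hη1, Real.exp_pos _, ?_⟩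
  intro D hD A hA hAD hcard hr Q hQ
  have cA : (0 : ℝ) < A.card := by exact_mod_cast hA.card_pos
  have cQ : (0 : ℝ) < Q.card := by exact_mod_cast hQ.card_pos
  have hDne : D.Nonempty := by
    obtain ⟨a, ha⟩ := hA
    exact ⟨_, hAD a ha⟩
  have cD : (0 : ℝ) < D.card := by exact_mod_cast hDne.card_pos
  set a := Real.log A.card with ha
  set q := Real.log Q.card with hq
  set d := Real.log D.card with hd
  set r : ℕ := (D.biUnion Nat.primeFactors).card with hrdef
  have ha0 : 0 ≤ a := Real.log_natCast_nonneg _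
  have hq0 : 0 ≤ q := Real.log_natCast_nonneg _
  have hd0 : 0 ≤ d := Real.log_natCast_nonneg _
  have hda : (1 - η) * d ≤ a := by
    have h1 := Real.log_le_log (by positivity) hcard
    rwa [Real.log_rpow cD] at h1
  have h1η : η * (1 + η₀) ≤ η₀ := by
    rwa [le_div_iff₀ (by positivity)] at hη2
  have hd1 : d ≤ (1 + η₀) * a := by
    have e1 : (1 + η₀) * ((1 - η) * d) ≤ (1 + η₀) * a :=
      mul_le_mul_of_nonneg_left hda (by linarith)
    have e2 : 1 ≤ (1 + η₀) * (1 - η) := by nlinarith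
    nlinarith
  have hd2 : d ≤ 2 * a := by nlinarith
  have h0 : ∀ z ∈ A, z ≠ 0 := by
    intro z hz h
    have := hAD z hz
    rw [h] at this
    exact hD.1 (by simpa using this)
  have hDv : ((Pool.Agent.W857.FD.Dv A).card : ℝ) ≤ (A.card : ℝ) ^ (1 + η₀) := by
    have e1 : ((Pool.Agent.W857.FD.Dv A).card : ℝ) ≤ D.card := by
      exact_mod_cast card_le_card (Dv_subset D hD A hAD)
    refine e1.trans ?_
    rw [← Real.log_le_log_iff cD (by positivity), Real.log_rpow cA]
    exact hd1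
  have hmain := hgen A hA h0 hDv Q hQ
  have hPS : Real.log (PS fun _ : Fin K => A).card ≤ Real.log 2 + d + r * Real.log K := by
    have e1 := card_PS_le K hK1 D hD A hAD
    have cPS : (0 : ℝ) < (PS fun _ : Fin K => A).card := by
      exact_mod_cast (PS_nonempty fun _ : Fin K => hA).card_pos
    have e2 : ((PS fun _ : Fin K => A).card : ℝ) ≤ 2 * (D.card * (K : ℝ) ^ r) := by
      exact_mod_cast e1
    have e3 := Real.log_le_log cPS e2
    have hKp : (0 : ℝ) < (K : ℝ) ^ r := by positivity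
    rw [Real.log_mul (by norm_num) (by positivity), Real.log_mul cD.ne' hKp.ne',
      Real.log_pow] at e3
    linarith
  have hlK : 0 ≤ Real.log K := Real.log_natCast_nonneg _
  have hrK : (r : ℝ) * Real.log K ≤ C * a * Real.log K :=
    mul_le_mul_of_nonneg_right hr hlK
  have hk0 : (0 : ℝ) ≤ k := by positivity
  have cSP : (0 : ℝ) < (Pool.Agent.W857.FD.SP A Q k).card := by
    exact_mod_cast (Pool.Agent.W857.FD.SP_nonempty hA hQ k).card_pos
  have hle : ((Pool.Agent.W857.FD.SP A Q k).card : ℝ) ≤ ((SS k A + Q).card : ℝ) := by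
    exact_mod_cast card_le_card (Pool.Agent.W857.FD.SP_subset A Q k)
  refine le_trans ?_ hle
  rw [Real.rpow_def_of_pos cA, Real.rpow_def_of_pos cQ, ← Real.exp_add, ← Real.exp_add,
    ← Real.le_log_iff_exp_le cSP]
  set s := Real.log (Pool.Agent.W857.FD.SP A Q k).card with hs
  have hK1p : (0 : ℝ) < K - 1 := by linarith
  have e1 : (K - 1) * s ≥ (k * K - 1) * a + (K - 1 - 1) * q - C₀ -
      k * (Real.log 2 + 2 * a + C * a * Real.log K) := by
    have := mul_le_mul_of_nonneg_left hPS hk0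
    have e2 : (k : ℝ) * (Real.log 2 + d + r * Real.log K) ≤
        k * (Real.log 2 + 2 * a + C * a * Real.log K) :=
      mul_le_mul_of_nonneg_left (by linarith) hk0
    linarith
  have e3 : (k - ε) * (K - 1) ≤ k * K - 1 - 2 * k - k * C * Real.log K := by
    nlinarith
  have e4 : (1 - ε) * (K - 1) ≤ (K : ℝ) - 1 - 1 := by nlinarith
  have e5 : (k - ε) * (K - 1) * a ≤ (k * K - 1 - 2 * k - k * C * Real.log K) * a :=
    mul_le_mul_of_nonneg_right e3 ha0
  have e6 : (1 - ε) * (K - 1) * q ≤ ((K : ℝ) - 1 - 1) * q := mul_le_mul_of_nonneg_right e4 hq0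
  have e7 : (-((C₀ + k * Real.log 2) / (K - 1)) + a * (k - ε) + q * (1 - ε)) * (K - 1) ≤
      s * (K - 1) := by
    have e8 : -((C₀ + k * Real.log 2) / (K - 1)) * ((K : ℝ) - 1) = -(C₀ + k * Real.log 2) := by
      field_simp
    have e9 : (-((C₀ + k * Real.log 2) / (K - 1)) + a * (k - ε) + q * (1 - ε)) * (K - 1) =
        -(C₀ + k * Real.log 2) + (k - ε) * (K - 1) * a + (1 - ε) * (K - 1) * q := by
      rw [add_mul, add_mul, e8]; ring
    rw [e9]
    nlinarith
  exact le_of_mul_le_mul_right e7 hK1p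

end Pool.Agent.TH358.SN
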