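import Pool.Agent.TH358.SN.Dich
import Pool.Agent.TH358.SN.FewP
import Pool.Agent.H254R2.SP.R

set_option autoImplicit false

/-!
The `k`-fold Erdős–Szemerédi conjecture for the large subsets of the numbers up to `x` composed of
the primes of a given set.
-/

namespace Pool.Agent.TH358.SN

open Finset H633R5.FS
open scoped Pointwise

theorem card_le_comp (x : ℕ) (P : Finset ℕ) (A : Finset ℤ) (hA : ∀ a ∈ A, a.natAbs ∈ comp x P) :
    A.card ≤ 2 * x := by
  classical
  have h1 : A.card ≤ 2 * (A.image Int.natAbs).card := by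
    apply Finset.card_le_mul_card_image
    intro b _
    refine (Finset.card_le_card (t := {(b : ℤ), -(b : ℤ)}) ?_).trans Finset.card_le_two
    intro z hz
    rw [mem_filter] at hz
    have := Int.natAbs_eq z
    rw [hz.2] at this
    simpa using this
  have h2 : A.image Int.natAbs ⊆ Icc 1 x := by
    intro n hn
    obtain ⟨a, ha, rfl⟩ := Finset.mem_image.1 hn
    rw [mem_Icc]
    exact (mem_comp.1 (hA a ha)).1
  have h3 := card_le_card h2
  rw [Nat.card_Icc] at h3
  omega

theorem many_primes (k : ℕ) (hk : 1 ≤ k) (ε b c Θ : ℝ) (hε : 0 < ε) (hb : 0 < b) (hc : 0 < c)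
    (hΘ : 1 ≤ Θ) :
    ∃ C κ : ℝ, 0 ≤ C ∧ 0 < κ ∧ ∀ (x y : ℕ) (P : Finset ℕ), 2 ≤ y → y ≤ x →
      (∀ p ∈ P, p.Prime ∧ p ≤ y) → b * (y : ℝ) ^ c ≤ P.card →
      ∀ A : Finset ℤ, A.Nonempty → (∀ a ∈ A, a.natAbs ∈ comp x P) →
        Real.log (comp x P).card ≤ Θ * Real.log A.card → C * Real.log A.card ≤ P.card →
        κ * (A.card : ℝ) ^ ((k : ℝ) - ε) ≤
          max ((SS k A).card : ℝ) ((PS fun _ : Fin k => A).card : ℝ) := by
  have hk0 : (0 : ℝ) < k := by exact_mod_cast hk
  set δ : ℝ := (ε / 110) ^ 2 / k ^ 3 with hδ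
  have hδ0 : 0 < δ := by positivity
  obtain ⟨C, L₀, hC, hL₀, hdich⟩ := dich δ b c Θ hδ0 hb hc hΘ
  set L₁ : ℝ := L₀ + 1 / δ with hL₁
  refine ⟨C + 1, min 1 (Real.exp (-(k * L₁))), by linarith, by positivity, ?_⟩
  intro x y P hy hyx hP hPc A hA hAP hdL hCP
  set κ : ℝ := min 1 (Real.exp (-(k * L₁))) with hκ
  have hκ1 : κ ≤ 1 := min_le_left _ _
  have hκ3 : κ ≤ Real.exp (-(k * L₁)) := min_le_right _ _
  have cA : (0 : ℝ) < A.card := by exact_mod_cast hA.card_pos
  have cA1 : (1 : ℝ) ≤ A.card := by exact_mod_cast hA.card_pos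
  set L := Real.log A.card with hL
  have hL0 : 0 ≤ L := Real.log_natCast_nonneg _
  rcases lt_or_ge L L₁ with hLs | hLb
  · -- small sets
    have h1 : (1 : ℝ) ≤ (PS fun _ : Fin k => A).card := by
      exact_mod_cast (PS_nonempty fun _ : Fin k => hA).card_pos
    refine le_trans ?_ (h1.trans (le_max_right _ _))
    have h2 : (A.card : ℝ) ^ ((k : ℝ) - ε) ≤ Real.exp (k * L₁) := by
      rw [Real.rpow_def_of_pos cA]
      apply Real.exp_le_exp.2
      have : Real.log A.card * ((k : ℝ) - ε) ≤ L * k :=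
        mul_le_mul_of_nonneg_left (by linarith) hL0
      nlinarith
    calc κ * (A.card : ℝ) ^ ((k : ℝ) - ε) ≤ Real.exp (-(k * L₁)) * Real.exp (k * L₁) :=
          mul_le_mul hκ3 h2 (by positivity) (by positivity)
      _ = 1 := by rw [← Real.exp_add]; simp
  · have hdp : 0 < 1 / δ := by positivity
    have hLL : L₀ ≤ L := by linarith
    have hLδ : 1 / δ ≤ L := by linarith
    have hLp : 0 < L := by linarith
    have hLx : L ≤ Real.log x + Real.log 2 := by
      have h1 := card_le_comp x P A hAP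
      have hx : (0 : ℝ) < x := by exact_mod_cast (by omega : 0 < x)
      rw [add_comm, ← Real.log_mul (by norm_num) hx.ne']
      exact Real.log_le_log cA (by exact_mod_cast h1)
    rcases hdich x y P hP hy hyx hPc L hLL hdL hLx with hr | hω
    · exfalso
      nlinarith
    · -- few prime factors
      have hδL : 1 ≤ δ * L := by
        rw [div_le_iff₀ hδ0] at hLδ
        linarith
      set m := ⌊δ * L⌋₊ with hm
      have hm1 : 1 ≤ m := (Nat.one_le_floor_iff _).2 hδL
      have hmL : (m : ℝ) ≤ δ * L := Nat.floor_le (by positivity)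
      have hA2 : 2 ≤ A.card := by
        by_contra hcon
        have h1 : A.card = 1 := by
          have := hA.card_pos
          omega
        rw [hL, h1, Nat.cast_one, Real.log_one] at hLp
        exact lt_irrefl _ hLp
      have hmain := H254R2.SP.final k hk A A (Subset.refl _) hA2 1 one_ne_zero m hm1 (by
        intro b hb _
        refine Nat.le_floor ?_
        refine le_trans ?_ (hω _ (hAP b hb))
        have : ((b.natAbs.primeFactors ∪ (1 : ℕ).primeFactors).filter fun p =>
            b.natAbs.factorization p ≠ (1 : ℕ).factorization p) ⊆ b.natAbs.primeFactors := by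
          refine (filter_subset _ _).trans ?_
          rw [Nat.primeFactors_one, union_empty]
        exact_mod_cast card_le_card this)
      refine le_trans ?_ hmain
      have h1 : Real.sqrt ((k : ℝ) ^ 3 * m * Real.log A.card) ≤ ε / 110 * L := by
        rw [Real.sqrt_le_left (by positivity)]
        calc (k : ℝ) ^ 3 * m * L ≤ (k : ℝ) ^ 3 * (δ * L) * L := by
              apply mul_le_mul_of_nonneg_right _ hL0
              exact mul_le_mul_of_nonneg_left hmL (by positivity)
          _ = (ε / 110 * L) ^ 2 := by rw [hδ]; field_simp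
      have h2 : -(ε * L) ≤ -(110 * Real.sqrt ((k : ℝ) ^ 3 * m * Real.log A.card)) := by
        linarith
      calc κ * (A.card : ℝ) ^ ((k : ℝ) - ε) ≤ 1 * (A.card : ℝ) ^ ((k : ℝ) - ε) :=
            mul_le_mul_of_nonneg_right hκ1 (by positivity)
        _ = (A.card : ℝ) ^ k * Real.exp (-(ε * L)) := by
            rw [one_mul, Real.rpow_sub cA, Real.rpow_natCast, Real.rpow_def_of_pos cA ε,
              Real.exp_neg, mul_comm ε L]
            rfl
        _ ≤ (A.card : ℝ) ^ k *
            Real.exp (-(110 * Real.sqrt ((k : ℝ) ^ 3 * m * Real.log A.card))) :=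
            mul_le_mul_of_nonneg_left (Real.exp_le_exp.2 h2) (by positivity)

theorem main (k : ℕ) (hk : 1 ≤ k) (ε b c θ : ℝ) (hε : 0 < ε) (hb : 0 < b) (hc : 0 < c)
    (hθ : 0 < θ) :
    ∃ η C κ : ℝ, 0 < η ∧ 0 < κ ∧ ∀ (x y : ℕ) (P : Finset ℕ), 2 ≤ y → y ≤ x →
      (∀ p ∈ P, p.Prime ∧ p ≤ y) → b * (y : ℝ) ^ c ≤ P.card →
      ∀ A : Finset ℤ, A.Nonempty → (∀ a ∈ A, a.natAbs ∈ comp x P) →
        (((comp x P).card : ℝ) ^ (1 - η) ≤ A.card →
          κ * (A.card : ℝ) ^ ((k : ℝ) - ε) ≤
            max ((SS k A).card : ℝ) ((PS fun _ : Fin k => A).card : ℝ)) ∧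
        (((comp x P).card : ℝ) ^ θ ≤ A.card → C * Real.log A.card ≤ P.card →
          κ * (A.card : ℝ) ^ ((k : ℝ) - ε) ≤
            max ((SS k A).card : ℝ) ((PS fun _ : Fin k => A).card : ℝ)) := by
  obtain ⟨C₁, κ₁, hC₁, hκ₁, h1⟩ := many_primes k hk ε b c 2 hε hb hc (by norm_num)
  obtain ⟨C₂, κ₂, hC₂, hκ₂, h2⟩ := many_primes k hk ε b c (max 1 (1 / θ)) hε hb hc
    (le_max_left _ _)
  obtain ⟨η, κ₃, hη, hη2, hκ₃, hfew⟩ := few_primes k ε C₁ hε hC₁
  refine ⟨η, C₂, min κ₁ (min κ₂ κ₃), hη, by positivity, ?_⟩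
  intro x y P hy hyx hP hPc A hA hAP
  have cA : (0 : ℝ) < A.card := by exact_mod_cast hA.card_pos
  have cC : (0 : ℝ) < (comp x P).card := by
    obtain ⟨a, ha⟩ := hA
    exact_mod_cast Finset.card_pos.2 ⟨_, hAP a ha⟩
  have hL0 : 0 ≤ Real.log A.card := Real.log_natCast_nonneg _
  have hd0 : 0 ≤ Real.log (comp x P).card := Real.log_natCast_nonneg _
  have hpow : (0 : ℝ) ≤ (A.card : ℝ) ^ ((k : ℝ) - ε) := by positivity
  constructor
  · intro hcard
    have hdL : Real.log (comp x P).card ≤ 2 * Real.log A.card := by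
      have h3 := Real.log_le_log (by positivity) hcard
      rw [Real.log_rpow cC] at h3
      nlinarith
    rcases le_total (C₁ * Real.log A.card) P.card with hr | hr
    · exact (mul_le_mul_of_nonneg_right (min_le_left _ _) hpow).trans
        (h1 x y P hy hyx hP hPc A hA hAP hdL hr)
    · have h4 : (((comp x P).biUnion Nat.primeFactors).card : ℝ) ≤ C₁ * Real.log A.card :=
        le_trans (by exact_mod_cast card_le_card (comp_primes x P)) hr
      have h5 := hfew (comp x P) (comp_convex x P) A hA hAP hcard h4 {0} (singleton_nonempty 0)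
      rw [card_singleton, Nat.cast_one, Real.one_rpow, mul_one,
        show (SS k A + {0} : Finset ℤ) = SS k A by
          rw [Finset.singleton_zero, add_zero]] at h5
      refine le_trans ?_ (h5.trans (le_max_left _ _))
      exact mul_le_mul_of_nonneg_right ((min_le_right _ _).trans (min_le_right _ _)) hpow
  · intro hcard hr
    have hdL : Real.log (comp x P).card ≤ max 1 (1 / θ) * Real.log A.card := by
      have h3 := Real.log_le_log (by positivity) hcard
      rw [Real.log_rpow cC] at h3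
      have h6 : Real.log (comp x P).card ≤ 1 / θ * Real.log A.card := by
        rw [one_div, ← div_eq_inv_mul, le_div_iff₀ hθ]
        linarith
      exact h6.trans (mul_le_mul_of_nonneg_right (le_max_right _ _) hL0)
    exact (mul_le_mul_of_nonneg_right ((min_le_right _ _).trans (min_le_left _ _)) hpow).trans
      (h2 x y P hy hyx hP hPc A hA hAP hdL hr)

/-- the primes up to `y` -/
def primesTo (y : ℕ) : Finset ℕ := (range (y + 1)).filter Nat.Prime

theorem card_primesTo (y : ℕ) : (primesTo y).card = Nat.primeCounting y := by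
  rw [primesTo, Nat.primeCounting, Nat.primeCounting', Nat.count_eq_card_filter_range]

theorem primesTo_ge (y : ℕ) (hy : 2 ≤ y) :
    1 / 10 * (y : ℝ) ^ (1 / 2 : ℝ) ≤ (primesTo y).card := by
  rw [card_primesTo, ← Real.sqrt_eq_rpow]
  rcases Nat.lt_or_ge y 3 with h | h
  · obtain rfl : y = 2 := by omega
    have h1 : Nat.primeCounting 2 = 1 := by decide
    rw [h1]
    have h2 : Real.sqrt ((2 : ℕ) : ℝ) ≤ 2 := by
      rw [Real.sqrt_le_left (by norm_num)]; norm_num
    push_cast at h2 ⊢
    linarith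
  · refine le_trans ?_ (Chebyshev.pi_ge y)
    have hyr : (3 : ℝ) ≤ y := by exact_mod_cast h
    set s := Real.sqrt y with hs
    have hs0 : 0 < s := Real.sqrt_pos.2 (by linarith)
    have hss : s * s = y := Real.mul_self_sqrt (by linarith)
    have hlog : 0 < Real.log y := Real.log_pos (by linarith)
    rw [le_div_iff₀ hlog]
    have h1 : Real.log y ≤ 2 * (s - 1) := by
      have e : Real.log y = 2 * Real.log s := by
        rw [← hss, Real.log_mul hs0.ne' hs0.ne']; ring
      rw [e]
      have := Real.log_le_sub_one_of_pos hs0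
      linarith
    have h2 : Real.log ((y : ℝ) + 1) ≤ Real.sqrt (y + 1) - 2 + 2 * Real.log 2 := by
      set t := Real.sqrt ((y : ℝ) + 1) with ht
      have ht0 : 0 < t := Real.sqrt_pos.2 (by linarith)
      have htt : t * t = y + 1 := Real.mul_self_sqrt (by linarith)
      have h3 : Real.log (t / 2) ≤ t / 2 - 1 := Real.log_le_sub_one_of_pos (by positivity)
      rw [Real.log_div ht0.ne' (by norm_num)] at h3
      rw [← htt, Real.log_mul ht0.ne' ht0.ne']
      linarith
    have h3 : Real.sqrt ((y : ℝ) + 1) ≤ 49 / 100 * y + 6 / 10 := by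
      rw [Real.sqrt_le_left (by linarith)]
      nlinarith
    have h4 := Real.log_two_gt_d9
    have h5 := Real.log_two_lt_d9
    have h6 : s ≤ y := by nlinarith [hss, hyr, sq_nonneg (s - 1)]
    nlinarith

theorem smooth_eq (x y : ℕ) : (Icc 1 x).filter (fun n => ∀ p ∈ n.primeFactors, p ≤ y) =
    comp x (primesTo y) := by
  ext n
  rw [mem_filter, mem_comp, mem_Icc]
  refine and_congr_right fun _ => ⟨fun h2 p hp => ?_, fun h2 p hp => ?_⟩
  · rw [primesTo, mem_filter, mem_range]
    exact ⟨by have := h2 p hp; omega, Nat.prime_of_mem_primeFactors hp⟩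
  · have h3 := h2 hp
    rw [primesTo, mem_filter, mem_range] at h3
    omega

end Pool.Agent.TH358.SN
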